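import Pool.Agent.Q269.DX.LD.Stm

/-!
# Project LD: all moments over the families of divisors
-/

set_option autoImplicit false
set_option linter.unusedVariables false

namespace Pool.Agent.Q269.DX.LD

open Pool.Agent.Q269.DX.Bs (ze ze_add)

open Finset Module
open Pool.Agent.Q269.DX.Bs (prs ext)
open Pool.Agent.Q269.DX.JQ
open scoped Classical

/-- LD-COL2: as `S_COL` (same proof, theorem `Pool.Agent.Q269.DX.A223.t_COL` of helper223, file Pool/Agent/Q223/LD/COL.lean), with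
an exponential saving in the number of the small primes: choose `A` with `2 C (1 - p) ^ A ≤ 1` and
`2 ^ R' C (1 - p / 2) ^ A ≤ 1`, then `R` large. -/
def S_COL2 : Prop := ∀ (s Cc : Type) [Fintype s] [Fintype Cc] [Nonempty Cc] (t₀ : s) (R' : ℕ)
  (C δ : ℝ), 1 ≤ C → 0 < δ → ∃ A R : ℕ, ∀ (U ι : Type) [Fintype U] [Fintype ι] (b : Bk s U ι),
  Reg b t₀ A R → (Nat.card {col : ι → Cc // ¬ POk b col t₀ R'} : ℝ) * C ^ Fintype.card U ≤
    δ * (Fintype.card Cc : ℝ) ^ Fintype.card ι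

/-- LD-CRD: a bound for the mean of the product of the numbers of all the solutions, without any regularity.
Proof: `S_PROBF` summed over all the `e f` (at most `∏ f, #V f ^ (#s + #U)` possibilities for the `δ` and the
`x_u`; a solution satisfies the rows of the large primes) gives at most
`∏ f, #V f ^ (#s + #U) * #{unlinked families} / ∏ f, #V f ^ #{i : B f i}`, and the number of the unlinked
families is at most `2 ^ (∑ c, vc V I c ^ 2) * ∏ f, #V f ^ #{i : B f i}` (the set of the values at each colour `c`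
has at most `vc V I c` elements, as in the proof of `S_NF`: `S_ORT`). -/
def S_CRD : Prop := ∀ (s F Cc : Type) [Fintype s] [Fintype F] [Fintype Cc] (V : F → Type)
  [∀ f, AddCommGroup (V f)] [∀ f, Module (ZMod 2) (V f)] [∀ f, Finite (V f)] (I : F → Finset Cc)
  (t₀ : s), ∃ K : ℝ, 0 ≤ K ∧ ∀ (D : ∀ f, Dj s (V f)), (∀ f, (D f).s₀ = t₀) → (∀ f, (D f).Sym) →
  (∀ f x, (∀ y, (D f).ω x y = 0) → x = 0) →
  ∀ (U ι : Type) [Fintype U] [Fintype ι] [LinearOrder ι]
    (b : Bk s U ι) (col : ι → Cc) (A : F → U → Prop) (B : F → ι → Prop),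
    (∀ f i, B f i ↔ col i ∈ I f) →
    ∑ α : prs (univ : Finset ι) → ZMod 2, ∏ f,
        (Nat.card (Sel (D f) ((sb b (A f) (B f)).N t₀ (ra (B f) α)) (sb b (A f) (B f)).h) : ℝ) ≤
      K * (∏ f, (Nat.card (V f) : ℝ) ^ (Fintype.card s + Fintype.card U)) *
        2 ^ (prs (univ : Finset ι)).card

/-- LD-DIVM: `S_DIV` for all the moments instead of the events (the second moment method as in the proof of
`S_DIV`, theorem `Pool.Agent.Q269.DX.A223.t_DIV` of helper223, file Pool/Agent/Q223/LD/DIV.lean). Proof: let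
`X α τ = ∏ m k, ∏ i < μ m k, (#Sel / #V - 2 ^ i)`. Since `#Sel` and `#V` are powers of 2,
`0 ≤ X α τ ≤ ∏ m k, #Sel ^ μ m k` except that `#Sel < #V` is possible (then the factor is bounded by
`2 ^ (μ m k ^ 2)` in absolute value; so always `|X α τ| ≤ c * ∏ m k, #Sel ^ μ m k` with a constant `c`), and
`∏ k, #Sel (D m k) ^ μ m k = #Sel (DD t₀ (D m) (μ m))` (`S_PI`). If the restricted blocks satisfy `Ok` with `R = 1`
then `(∏ m k, #V ^ μ m k) * X α τ = ∏ m, cnt (DD t₀ (D m) (μ m)) _ (GmD (V m)) _` (`S_CNT`), so for regular `τ`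
(`POk` for the colours `N → ZMod 2`) `S_LAMF` with the data `DD t₀ (D m) (μ m)`, `GmD`, `SS` (`S_PI`, `S_SS2`) gives
`E X ≈ L = ∏ m k, 2 ^ (μ (μ + 1) / 2)`, and for regular pairs `(τ, τ')` (colours `N ⊕ N → ZMod 2`, forms `M ⊕ M`)
`E X X' ≈ L ^ 2`. For the other pairs use `S_CRD` for the forms `M ⊕ M` (and for `M`):
`E |X - L| |X' - L| ≤ K' * (∏ m k, #V ^ μ m k) ^ (2 * (#s + #U))`; their number is at most
`δ C ^ (-#U) * total` for any given `C` (`S_COL2`). Markov's inequality for the square of the sum. -/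
def S_DIVM : Prop := ∀ (s N M : Type) [Fintype s] [Fintype N] [Fintype M] (κ : M → Type) [∀ m, Fintype (κ m)]
  (V : ∀ m, κ m → Type) [∀ m k, AddCommGroup (V m k)] [∀ m k, Module (ZMod 2) (V m k)]
  [∀ m k, Finite (V m k)] [∀ m k, Nontrivial (V m k)] (e : M → N → ZMod 2),
  Function.Injective e → (∀ m, e m ≠ 0) → ∀ (t₀ : s) (ρ : N → s → ZMod 2)
  (D : ∀ m k, Dj s (V m k)), (∀ m k, (D m k).s₀ = t₀) → (∀ m k, (D m k).Ok (lbf e ρ m)) →
  (∀ m, Adj2 (D m)) → ∀ (μ : ∀ m, κ m → ℕ) (ε : ℝ), 0 < ε → ∃ A R : ℕ,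
  ∀ (U ι : Type) [Fintype U] [Fintype ι] [LinearOrder ι] (b : Bk s U ι), Reg b t₀ A R →
    ∀ (X : (prs (univ : Finset ι) → ZMod 2) → (U ⊕ ι → N → ZMod 2) → ℝ),
    (∀ α τ, X α τ = ∏ m, ∏ k, ∏ i ∈ range (μ m k),
      ((Nat.card (Sel (D m k)
        ((sb b (fun u => act e τ m (Sum.inl u)) (fun i => act e τ m (Sum.inr i))).N t₀
          (ra (fun i => act e τ m (Sum.inr i)) α))
        (sb b (fun u => act e τ m (Sum.inl u)) (fun i => act e τ m (Sum.inr i))).h) : ℝ) /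
          (Nat.card (V m k) : ℝ) - 2 ^ i)) →
    (((univ : Finset (prs (univ : Finset ι) → ZMod 2)).filter fun α =>
        ε * (2 ^ Fintype.card N : ℝ) ^ (Fintype.card U + Fintype.card ι) <
          |∑ τ ∈ (univ : Finset (U ⊕ ι → N → ZMod 2)).filter (fun τ => lbs b.h τ = ρ),
            (X α τ - ∏ m, ∏ k, (2 : ℝ) ^ (μ m k * (μ m k + 1) / 2))|).card : ℝ) ≤
      ε * 2 ^ (prs (univ : Finset ι)).card

end Pool.Agent.Q269.DX.LD
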